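import Mathlib
import Pool.Agent.R687.Um.Topo

/-!
# Elementary transitivity on unimodular rows fails over graded Laurent subalgebras

For every `d ≥ 0` and every `n ≥ 2` there are a Noetherian ring `R` of Krull dimension `d`, a number
`m` and a graded `R`-subalgebra `A` of the Laurent polynomial ring `R[X_1^{±1}, …, X_m^{±1}]`
(graded by total degree) such that `E_n(A)` does not act transitively on `Um_n(A)`.

The algebra `A` is concentrated in degree `0`; it is generated by elements `x_1, …, x_n`,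
`y_1, …, y_n` of degree `0` with `x_1 y_1 + ⋯ + x_n y_n = 1`, and the row is `(x_1, …, x_n)`.
It maps to the ring of continuous functions on the sphere `S^{n-1}` in such a way that the row
becomes the inclusion of `S^{n-1}` in `ℝ^n ∖ {0}`.  An elementary completion would give a null
homotopy of this inclusion.
-/

set_option autoImplicit false

open Set Metric Topology

namespace Pool.Agent.Results.MP_aa4be7_al.UniversalRow

/-- The Laurent polynomial ring `R[X_1^{±1}, …, X_m^{±1}]`, as the algebra of the monoid `ℤ^m`. -/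
abbrev Laurent (R : Type*) [CommRing R] (m : ℕ) : Type _ := AddMonoidAlgebra R (Fin m → ℤ)

/-- The component `L_k` of degree `k` of the Laurent polynomial ring: the `R`-span of the monomials
`X_1^{a_1} ⋯ X_m^{a_m}` with `a_1 + ⋯ + a_m = k`. -/
noncomputable def component (R : Type*) [CommRing R] (m : ℕ) (k : ℤ) : Submodule R (Laurent R m) :=
  Submodule.span R {f | ∃ a : Fin m → ℤ, ∑ i, a i = k ∧ f = AddMonoidAlgebra.single a 1}

/-- The subalgebra `A` is graded: `A = ⨁_k (A ∩ L_k)` (the sum of the `L_k` is always direct). -/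
def IsGraded {R : Type*} [CommRing R] {m : ℕ} (A : Subalgebra R (Laurent R m)) : Prop :=
  Subalgebra.toSubmodule A = ⨆ k : ℤ, Subalgebra.toSubmodule A ⊓ component R m k

/-- The row `v` is unimodular. -/
def IsUnimodular {n : ℕ} {A : Type*} [CommRing A] (v : Fin n → A) : Prop :=
  ∃ w : Fin n → A, ∑ i, v i * w i = 1

/-- The elementary subgroup `E_n(A)` of `GL_n(A)`: it is generated by the matrices `1 + c e_{ij}`
with `i ≠ j` and `c ∈ A`. -/
def elementary (n : ℕ) (A : Type*) [CommRing A] : Subgroup (Matrix (Fin n) (Fin n) A)ˣ :=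
  Subgroup.closure {g | ∃ (i j : Fin n) (c : A), i ≠ j ∧
    (g : Matrix (Fin n) (Fin n) A) = 1 + Matrix.single i j c}

/-- `v` is the first row of an elementary matrix, i.e. `v ∈ e_1 E_n(A)`. -/
def IsElementaryRow {n : ℕ} {A : Type*} [CommRing A] (v : Fin n → A) : Prop :=
  ∃ g ∈ elementary n A, ∃ i : Fin n, (i : ℕ) = 0 ∧
    ∀ j, v j = (g : Matrix (Fin n) (Fin n) A) i j

section construction

variable (R : Type*) [CommRing R] (k : ℕ)

/-- The exponent of `X_a / X_b`. -/
def ex (m : ℕ) (a b : Fin m) : Fin m → ℤ := Pi.single a 1 - Pi.single b 1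

lemma ex_sum (m : ℕ) (a b : Fin m) : ∑ i, ex m a b i = 0 := by
  simp [ex, Finset.sum_sub_distrib]

/-- The monomial `X_a / X_b`. -/
noncomputable def quo (m : ℕ) (a b : Fin m) : Laurent R m := AddMonoidAlgebra.single (ex m a b) 1

lemma quo_mul_quo (m : ℕ) (a b : Fin m) : quo R m a b * quo R m b a = 1 := by
  rw [quo, quo, AddMonoidAlgebra.single_mul_single, mul_one, AddMonoidAlgebra.one_def]
  congr 1
  simp [ex]

/-- The elements `x_i`. -/
noncomputable def xx (i : Fin (k + 1)) : Laurent R ((k + 1) + (k + 1)) :=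
  quo R _ (Fin.castAdd (k + 1) i) (Fin.natAdd (k + 1) 0)

/-- The elements `y_i`. -/
noncomputable def yy : Fin (k + 1) → Laurent R ((k + 1) + (k + 1)) :=
  Fin.cons (quo R _ (Fin.natAdd (k + 1) 0) (Fin.castAdd (k + 1) 0) *
    (1 - ∑ i : Fin k, xx R k i.succ * quo R _ (Fin.natAdd (k + 1) i.succ) (Fin.natAdd (k + 1) 0)))
    (fun i => quo R _ (Fin.natAdd (k + 1) i.succ) (Fin.natAdd (k + 1) 0))

lemma sum_xx_yy : ∑ i, xx R k i * yy R k i = 1 := by
  rw [Fin.sum_univ_succ]
  simp only [yy, Fin.cons_zero, Fin.cons_succ]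
  rw [← mul_assoc, xx, quo_mul_quo, one_mul, sub_add_cancel]

/-- The map from the polynomial ring. -/
noncomputable def pol : MvPolynomial (Fin (k + 1) ⊕ Fin (k + 1)) R →ₐ[R]
    Laurent R ((k + 1) + (k + 1)) :=
  MvPolynomial.aeval (Sum.elim (xx R k) (yy R k))

lemma one_mem_component (m : ℕ) : (1 : Laurent R m) ∈ component R m 0 :=
  Submodule.subset_span ⟨0, by simp, AddMonoidAlgebra.one_def⟩

lemma quo_mem_component (m : ℕ) (a b : Fin m) : quo R m a b ∈ component R m 0 :=
  Submodule.subset_span ⟨ex m a b, ex_sum m a b, rfl⟩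

lemma mul_mem_component (m : ℕ) {f g : Laurent R m} (hf : f ∈ component R m 0)
    (hg : g ∈ component R m 0) : f * g ∈ component R m 0 := by
  have h : component R m 0 * component R m 0 ≤ component R m 0 := by
    unfold component
    rw [Submodule.span_mul_span]
    refine Submodule.span_mono ?_
    rintro _ ⟨_, ⟨a, ha, rfl⟩, _, ⟨b, hb, rfl⟩, rfl⟩
    refine ⟨a + b, by simp [Finset.sum_add_distrib, ha, hb], ?_⟩
    simp [AddMonoidAlgebra.single_mul_single]
  exact h (Submodule.mul_mem_mul hf hg)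

lemma xx_mem (i : Fin (k + 1)) : xx R k i ∈ component R ((k + 1) + (k + 1)) 0 :=
  quo_mem_component R _ _ _

lemma yy_mem (i : Fin (k + 1)) : yy R k i ∈ component R ((k + 1) + (k + 1)) 0 := by
  refine Fin.cases ?_ (fun i => ?_) i
  · simp only [yy, Fin.cons_zero]
    refine mul_mem_component R _ (quo_mem_component R _ _ _) ?_
    refine Submodule.sub_mem _ (one_mem_component R _) (Submodule.sum_mem _ fun i _ => ?_)
    exact mul_mem_component R _ (xx_mem R k _) (quo_mem_component R _ _ _)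
  · simp only [yy, Fin.cons_succ]
    exact quo_mem_component R _ _ _

lemma pol_mem (p : MvPolynomial (Fin (k + 1) ⊕ Fin (k + 1)) R) :
    pol R k p ∈ component R ((k + 1) + (k + 1)) 0 := by
  induction p using MvPolynomial.induction_on with
  | C a =>
    rw [MvPolynomial.C_eq_smul_one, map_smul, map_one]
    exact Submodule.smul_mem _ _ (one_mem_component R _)
  | add p q hp hq => rw [map_add]; exact Submodule.add_mem _ hp hq
  | mul_X p i hp =>
    rw [map_mul]
    refine mul_mem_component R _ hp ?_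
    rw [pol, MvPolynomial.aeval_X]
    rcases i with i | i
    · exact xx_mem R k i
    · exact yy_mem R k i

/-- The algebra `A`. -/
noncomputable def alg : Subalgebra R (Laurent R ((k + 1) + (k + 1))) := (pol R k).range

lemma alg_graded : IsGraded (alg R k) := by
  apply le_antisymm
  · refine le_trans ?_ (le_iSup _ (0 : ℤ))
    rintro f hf
    refine ⟨hf, ?_⟩
    obtain ⟨p, rfl⟩ := hf
    exact pol_mem R k p
  · exact iSup_le fun i => inf_le_left

lemma alg_fg : (alg R k).FG := by
  unfold alg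
  rw [← Algebra.map_top]
  exact Subalgebra.FG.map _ Algebra.FiniteType.out

lemma xx_mem_alg (i : Fin (k + 1)) : xx R k i ∈ alg R k :=
  ⟨MvPolynomial.X (Sum.inl i), by
    show pol R k (MvPolynomial.X (Sum.inl i)) = xx R k i
    rw [pol, MvPolynomial.aeval_X]; rfl⟩

lemma yy_mem_alg (i : Fin (k + 1)) : yy R k i ∈ alg R k :=
  ⟨MvPolynomial.X (Sum.inr i), by
    show pol R k (MvPolynomial.X (Sum.inr i)) = yy R k i
    rw [pol, MvPolynomial.aeval_X]; rfl⟩

/-- The row `(x_1, …, x_n)`. -/
noncomputable def row : Fin (k + 1) → alg R k := fun i => ⟨xx R k i, xx_mem_alg R k i⟩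

lemma row_unimodular : IsUnimodular (row R k) := by
  refine ⟨fun i => ⟨yy R k i, yy_mem_alg R k i⟩, ?_⟩
  apply Subtype.ext
  rw [AddSubmonoidClass.coe_finsetSum]
  exact sum_xx_yy R k

end construction

section evaluation

open Pool.Agent.R687.Um

variable {R : Type*} [CommRing R] {k : ℕ} (φ : R →+* ℝ)

/-- Evaluation of Laurent polynomials at a point with non-zero coordinates. -/
noncomputable def mon {m : ℕ} (q : Fin m → ℝ) (hq : ∀ i, q i ≠ 0) :
    Multiplicative (Fin m → ℤ) →* ℝ where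
  toFun a := ∏ i, q i ^ (Multiplicative.toAdd a i)
  map_one' := by simp
  map_mul' a b := by
    rw [← Finset.prod_mul_distrib]
    refine Finset.prod_congr rfl fun i _ => ?_
    rw [toAdd_mul, Pi.add_apply, zpow_add₀ (hq i)]

/-- Evaluation of Laurent polynomials at a point with non-zero coordinates. -/
noncomputable def ev {m : ℕ} (q : Fin m → ℝ) (hq : ∀ i, q i ≠ 0) : Laurent R m →+* ℝ :=
  AddMonoidAlgebra.liftNCRingHom φ (mon q hq) (fun _ _ => Commute.all _ _)

lemma ev_quo {m : ℕ} (q : Fin m → ℝ) (hq : ∀ i, q i ≠ 0) (a b : Fin m) :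
    ev φ q hq (quo R m a b) = q a / q b := by
  rw [ev, quo, AddMonoidAlgebra.liftNCRingHom_single, map_one, one_mul]
  show ∏ i, q i ^ (ex m a b i) = q a / q b
  have h : ∀ c : Fin m, ∏ i, q i ^ ((Pi.single c 1 : Fin m → ℤ) i) = q c := by
    intro c
    rw [Finset.prod_eq_single c]
    · simp
    · intro i _ hi
      rw [Pi.single_eq_of_ne hi, zpow_zero]
    · intro h; exact absurd (Finset.mem_univ c) h
  rw [← h a, ← h b, ← Finset.prod_div_distrib]
  refine Finset.prod_congr rfl fun i _ => ?_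
  rw [ex, Pi.sub_apply, zpow_sub₀ (hq i)]

/-- The point of the torus attached to a point of the sphere. -/
noncomputable def pt (s : Fin (k + 1) → ℝ) : Fin ((k + 1) + (k + 1)) → ℝ :=
  Fin.append s (Fin.cons 1 (fun i => s i.succ))

lemma pt_ne {s : Fin (k + 1) → ℝ} (hs : ∀ i, s i ≠ 0) (i : Fin ((k + 1) + (k + 1))) :
    pt s i ≠ 0 := by
  refine Fin.addCases (fun i => ?_) (fun i => ?_) i
  · rw [pt, Fin.append_left]; exact hs i
  · rw [pt, Fin.append_right]
    refine Fin.cases ?_ (fun i => ?_) i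
    · simp
    · simpa using hs i.succ

lemma ev_xx {s : Fin (k + 1) → ℝ} (hs : ∀ i, s i ≠ 0) (i : Fin (k + 1)) :
    ev φ (pt s) (pt_ne hs) (xx R k i) = s i := by
  rw [xx, ev_quo, pt, Fin.append_left, Fin.append_right, Fin.cons_zero, div_one]

lemma ev_yy {s : Fin (k + 1) → ℝ} (hs : ∀ i, s i ≠ 0) (h1 : ∑ i, s i * s i = 1)
    (i : Fin (k + 1)) : ev φ (pt s) (pt_ne hs) (yy R k i) = s i := by
  have hw : ∀ i : Fin k, ev φ (pt s) (pt_ne hs)
      (quo R _ (Fin.natAdd (k + 1) i.succ) (Fin.natAdd (k + 1) 0)) = s i.succ := by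
    intro i
    rw [ev_quo, pt, Fin.append_right, Fin.append_right, Fin.cons_zero, div_one, Fin.cons_succ]
  have h0 : ev φ (pt s) (pt_ne hs)
      (quo R _ (Fin.natAdd (k + 1) 0) (Fin.castAdd (k + 1) 0)) = 1 / s 0 := by
    rw [ev_quo, pt, Fin.append_right, Fin.append_left, Fin.cons_zero]
  refine Fin.cases ?_ (fun i => ?_) i
  · simp only [yy, Fin.cons_zero]
    rw [map_mul, map_sub, map_one, map_sum, h0]
    have h3 : ∀ i : Fin k, ev φ (pt s) (pt_ne hs)
        (xx R k i.succ * quo R _ (Fin.natAdd (k + 1) i.succ) (Fin.natAdd (k + 1) 0)) =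
        s i.succ * s i.succ := by
      intro i
      rw [map_mul, ev_xx φ hs, hw]
    simp only [h3]
    rw [Fin.sum_univ_succ] at h1
    have h2 : 1 - ∑ i : Fin k, s i.succ * s i.succ = s 0 * s 0 := by linarith
    rw [h2]
    have := hs 0
    field_simp
  · simp only [yy, Fin.cons_succ]
    exact hw i

/-- The coordinate functions on the sphere. -/
noncomputable def coord (i : Fin (k + 1)) : C(Sp k, ℝ) :=
  ⟨fun s => (s : EuclideanSpace ℝ (Fin (k + 1))) i, by fun_prop⟩

/-- The map from the polynomial ring to the continuous functions on the sphere. -/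
noncomputable def psi : MvPolynomial (Fin (k + 1) ⊕ Fin (k + 1)) R →+* C(Sp k, ℝ) :=
  MvPolynomial.eval₂Hom ((algebraMap ℝ C(Sp k, ℝ)).comp φ) (Sum.elim coord coord)

lemma sphere_sum (s : Sp k) : ∑ i, (s : EuclideanSpace ℝ (Fin (k + 1))) i *
    (s : EuclideanSpace ℝ (Fin (k + 1))) i = 1 := by
  have h := EuclideanSpace.real_norm_sq_eq (s : EuclideanSpace ℝ (Fin (k + 1)))
  rw [mem_sphere_zero_iff_norm.1 s.2, one_pow] at h
  refine Eq.trans ?_ h.symm
  exact Finset.sum_congr rfl fun i _ => (pow_two _).symm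

lemma psi_eq (s : Sp k) (hs : ∀ i, (s : EuclideanSpace ℝ (Fin (k + 1))) i ≠ 0)
    (p : MvPolynomial (Fin (k + 1) ⊕ Fin (k + 1)) R) :
    psi φ p s = ev φ (pt fun i => (s : EuclideanSpace ℝ (Fin (k + 1))) i) (pt_ne hs)
      (pol R k p) := by
  induction p using MvPolynomial.induction_on with
  | C a =>
    rw [psi, MvPolynomial.coe_eval₂Hom, MvPolynomial.eval₂_C, pol, MvPolynomial.aeval_C,
      Algebra.algebraMap_eq_smul_one, AddMonoidAlgebra.one_def, AddMonoidAlgebra.smul_single, ev,
      AddMonoidAlgebra.liftNCRingHom_single]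
    simp
  | add p q hp hq => rw [map_add, map_add, map_add, ContinuousMap.add_apply, hp, hq]
  | mul_X p i hp =>
    rw [map_mul, map_mul, map_mul, ContinuousMap.mul_apply, hp]
    congr 1
    rw [pol, MvPolynomial.aeval_X, psi, MvPolynomial.coe_eval₂Hom, MvPolynomial.eval₂_X]
    rcases i with i | i
    · simp only [Sum.elim_inl]
      rw [ev_xx φ hs i]; rfl
    · simp only [Sum.elim_inr]
      rw [ev_yy φ hs (sphere_sum s) i]; rfl

lemma dense_aux (f : C(Sp k, ℝ))
    (hf : ∀ s : Sp k, (∀ i, (s : EuclideanSpace ℝ (Fin (k + 1))) i ≠ 0) → f s = 0) : f = 0 := by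
  ext s
  set c : EuclideanSpace ℝ (Fin (k + 1)) :=
    WithLp.toLp 2 (fun i => if 0 ≤ (s : EuclideanSpace ℝ (Fin (k + 1))) i then (1 : ℝ) else -1)
    with hc
  set γ : unitInterval → EuclideanSpace ℝ (Fin (k + 1)) :=
    fun t => (s : EuclideanSpace ℝ (Fin (k + 1))) + (t : ℝ) • c with hγ
  have hcoord : ∀ (t : unitInterval) (i), 0 < (t : ℝ) → γ t i ≠ 0 := by
    intro t i ht
    simp only [hγ, hc, PiLp.add_apply, PiLp.smul_apply, smul_eq_mul]
    split_ifs with h
    · nlinarith
    · push Not at h; nlinarith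
  have hs1 : ‖(s : EuclideanSpace ℝ (Fin (k + 1)))‖ = 1 := mem_sphere_zero_iff_norm.1 s.2
  have hγ0 : ∀ t, γ t ≠ 0 := by
    intro t ht
    rcases (t.2.1).lt_or_eq with h | h
    · exact hcoord t 0 h (by rw [ht]; rfl)
    · have : γ t = s := by simp only [hγ]; rw [← h]; simp
      rw [this] at ht
      rw [ht, norm_zero] at hs1
      exact zero_ne_one hs1
  have hγc : Continuous γ := by
    simp only [hγ]; fun_prop
  have hmem : ∀ t, ‖γ t‖⁻¹ • γ t ∈ sphere (0 : EuclideanSpace ℝ (Fin (k + 1))) 1 := by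
    intro p
    rw [mem_sphere_zero_iff_norm, norm_smul, norm_inv, norm_norm,
      inv_mul_cancel₀ (norm_ne_zero_iff.2 (hγ0 p))]
  let ρ : unitInterval → Sp k := fun t => ⟨‖γ t‖⁻¹ • γ t, hmem t⟩
  have hρ : Continuous ρ := by
    refine Continuous.subtype_mk ?_ _
    exact (hγc.norm.inv₀ fun p => norm_ne_zero_iff.2 (hγ0 p)).smul hγc
  have hρ0 : ρ 0 = s := by
    apply Subtype.ext
    show ‖γ 0‖⁻¹ • γ 0 = s
    have : γ 0 = s := by simp [hγ]
    rw [this, hs1, inv_one, one_smul]
  have hzero : ∀ t : unitInterval, 0 < (t : ℝ) → f (ρ t) = 0 := by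
    intro t ht
    refine hf _ fun i => ?_
    show (‖γ t‖⁻¹ • γ t) i ≠ 0
    rw [PiLp.smul_apply, smul_eq_mul]
    exact mul_ne_zero (inv_ne_zero (norm_ne_zero_iff.2 (hγ0 t))) (hcoord t i ht)
  -- a sequence tending to zero
  have hmem2 : ∀ n : ℕ, (1 : ℝ) / (n + 1) ∈ Set.Icc (0 : ℝ) 1 := by
    intro n
    refine ⟨by positivity, ?_⟩
    rw [div_le_one (by positivity)]
    have : (0 : ℝ) ≤ n := Nat.cast_nonneg n
    linarith
  let τ : ℕ → unitInterval := fun n => ⟨1 / ((n : ℝ) + 1), hmem2 n⟩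
  have hτ : Filter.Tendsto τ Filter.atTop (𝓝 0) := by
    rw [tendsto_subtype_rng]
    exact tendsto_one_div_add_atTop_nhds_zero_nat
  have h1 : Filter.Tendsto (fun n => f (ρ (τ n))) Filter.atTop (𝓝 (f (ρ 0))) :=
    ((f.continuous.comp hρ).tendsto 0).comp hτ
  have h2 : (fun n => f (ρ (τ n))) = fun _ => (0 : ℝ) := by
    funext n
    exact hzero _ (by show (0 : ℝ) < 1 / ((n : ℝ) + 1); positivity)
  rw [h2] at h1
  have h3 := tendsto_nhds_unique h1 tendsto_const_nhds
  rw [hρ0] at h3
  simpa using h3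

lemma ker_le : RingHom.ker (pol R k).rangeRestrict.toRingHom ≤ RingHom.ker (psi (k := k) φ) := by
  intro p hp
  rw [RingHom.mem_ker] at hp ⊢
  have hp' : pol R k p = 0 := congrArg Subtype.val hp
  refine dense_aux _ fun s hs => ?_
  rw [psi_eq φ s hs, hp', map_zero]

/-- The ring homomorphism from `A` to the continuous functions on the sphere. -/
noncomputable def Phi : alg R k →+* C(Sp k, ℝ) :=
  RingHom.liftOfSurjective (pol R k).rangeRestrict.toRingHom
    (pol R k).rangeRestrict_surjective ⟨psi φ, ker_le φ⟩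

lemma Phi_row (j : Fin (k + 1)) : Phi φ (row R k j) = coord j := by
  have h1 : row R k j = (pol R k).rangeRestrict.toRingHom (MvPolynomial.X (Sum.inl j)) := by
    apply Subtype.ext
    show xx R k j = pol R k (MvPolynomial.X (Sum.inl j))
    rw [pol, MvPolynomial.aeval_X]; rfl
  rw [h1]
  have h2 := RingHom.liftOfRightInverse_comp_apply (pol R k).rangeRestrict.toRingHom
    (Function.surjInv (pol R k).rangeRestrict_surjective)
    (Function.rightInverse_surjInv (pol R k).rangeRestrict_surjective)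
    ⟨psi (k := k) φ, ker_le φ⟩ (MvPolynomial.X (Sum.inl j))
  refine h2.trans ?_
  show psi φ (MvPolynomial.X (Sum.inl j)) = coord j
  rw [psi, MvPolynomial.coe_eval₂Hom, MvPolynomial.eval₂_X]
  rfl

lemma elementary_eq (n : ℕ) (A : Type*) [CommRing A] :
    elementary n A = Pool.Agent.R687.Um.elementary n A := rfl

include φ in
lemma not_elementaryRow : ¬ IsElementaryRow (row R k) := by
  rintro ⟨g, hg, i, hi, h⟩
  have hi0 : i = 0 := Fin.ext hi
  subst hi0
  refine no_elementary_row (Phi φ) (row R k) (fun j s => ?_) g hg h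
  rw [Phi_row]; rfl

end evaluation

/-- For every `d` and every `n ≥ 2` (in particular for all `n ≥ max (d + 2) 3`) the Noetherian ring
`R = ℝ[t_1, …, t_d]`, which has Krull dimension `d`, and a suitable number `m ≥ 1` have the
following property: the Laurent polynomial ring `R[X_1^{±1}, …, X_m^{±1}]` has a graded
`R`-subalgebra `A`, finitely generated over `R`, and a unimodular row in `Um_n(A)` that is not the
first row of an elementary matrix in `E_n(A)`. -/
theorem result (d n : ℕ) (hn : 2 ≤ n) :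
    IsNoetherianRing (MvPolynomial (Fin d) ℝ) ∧
    ringKrullDim (MvPolynomial (Fin d) ℝ) = d ∧
    ∃ m : ℕ, 1 ≤ m ∧ ∃ A : Subalgebra (MvPolynomial (Fin d) ℝ)
      (Laurent (MvPolynomial (Fin d) ℝ) m),
      IsGraded A ∧ A.FG ∧ ∃ v : Fin n → A, IsUnimodular v ∧ ¬ IsElementaryRow v := by
  refine ⟨inferInstance, ?_, ?_⟩
  · rw [MvPolynomial.ringKrullDim_of_isNoetherianRing]
    simp
  · obtain ⟨k, rfl⟩ : ∃ k, n = k + 1 := ⟨n - 1, by omega⟩
    exact ⟨(k + 1) + (k + 1), by omega, alg _ k, alg_graded _ k, alg_fg _ k, row _ k,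
      row_unimodular _ k, not_elementaryRow MvPolynomial.constantCoeff⟩

end Pool.Agent.Results.MP_aa4be7_al.UniversalRow
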